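import Pool.Agent.U436.CS.IsoMain

/-!
# The determinant part of the motivic homology with compact support of products of coverings of the line

`T` is a Borel–Moore homology theory on affine varieties over the algebraically closed field `k` of characteristic
`p > 0`, with coefficients in a field `K` of characteristic zero. For the problem: `k` is the closure of `𝔽_q`, and for
fixed `i` and `m` `T.H X = H_i^c (X, ℤ (m)) ⊗ K = CH_m (X, i - 2 m) ⊗ K` is motivic homology with compact support. `O X h`
and `B X h` are the same for the open part `h ≠ 0` of `X` and the next degree. `IsBorelMoore` is the list of the known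
properties of such theories: functoriality for finite maps, long exact sequences, homotopy invariance, additivity,
quotients by finite groups. `cl : G → T` is any map of two such theories (a regulator, a cycle map, or the action
of a correspondence on another factor).

Let `A ≠ 0` be an additive polynomial, for example `A (y) = y ^ Q - y`, `C j : A (y) = F j (x)`, `j < M`,
`F j (x) = f0 (x) + ∑ i, f i (1 / (x - P i))` any rational functions over `k` with pole orders prime to `p`,
`d j = deg f0 - 1 + ∑ (deg f i + 1)` the dimension of `H¹ (C j)_ψ`, `∑ d j = 2 n`, `c j ≠ 0` constants such that the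
multiplication with `c j` commutes with `A`, and `S` a closed subset of an affine space. The determinant part of the
homology of `∏ C j ^ d j × S` consists of the classes which are invariant under all the permutations of the `d j`
factors `C j` and under the translations `y l ↦ y l + α l` with `∑ c l * α l = 0`, and killed by the sum of all the
translations of one factor; its motive is the sum over the characters `ψ ≠ 1` of the tensor products of the
determinants of the `H¹ (C j)_{ψ (c j ·)}`, and the motive of `S`.

Theorem: the determinant part of `T` on `∏ C j ^ d j × S` is isomorphic to the direct sum of copies of `T` on `𝔸 ^ n × S`,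
one copy for each zero of `A` other than `0`, and the isomorphisms are compatible with all maps `cl`.

So `H_i^c (∏ C j ^ d j × S, K (m))_det` is a sum of copies of `H_{i - 2 n}^c (S, K (m - n))`, for all `i` and `m`: the
conjecture `P_m` holds for the determinant part of `∏ C j ^ d j × S` if and only if `P_{m - n}` holds for `S` (`S` smooth
projective, replaced by Jouanolou's affine torsor, which has the same homology up to a shift; `p` inverted, torsion over
`𝔽_q` being the same as torsion over the closure). For `S` a point `P_m` holds for the determinant part for all `m`,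
unconditionally (Quillen): `H_i^c (∏ C j ^ d j, K (m))_det = 0` for all `(i, m) ≠ (2 n, n)`.
-/

set_option autoImplicit false

namespace Pool.Agent.Results.MP_7923e9_ag.DeterminantMotives

open Pool.Agent.U436.AS Pool.Agent.U436.CT Pool.Agent.U436.CP Pool.Agent.U436.CS

variable {k K : Type} [Field k] [Field K]

/-- The linear map `a` is injective, and its image consists of the elements with the property `p`. -/
def IsBij {V W : Type} [AddCommGroup V] [Module K V] [AddCommGroup W] [Module K W] (a : V →ₗ[K] W) (p : W → Prop) :
    Prop := Function.Injective a ∧ ∀ x, p x ↔ ∃ y, a y = x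

/-- The elements of `G.H Y` with the property `p` and those of `T.H Y` with the property `q` are sums of copies of
`G.H W` and `T.H W`, indexed by `Z`, compatible with `cl`. -/
def AreCopies (C : CycleMap k K) (Z : Type) {ι κ : Type} (W : Set (ι → k)) (Y : Set (κ → k)) (p : C.G.H Y → Prop)
    (q : C.T.H Y → Prop) : Prop :=
  ∃ (a : (Z → C.G.H W) →ₗ[K] C.G.H Y) (b : (Z → C.T.H W) →ₗ[K] C.T.H Y), IsBij a p ∧ IsBij b q ∧
    ∀ y, C.cyc Y (a y) = b fun z => C.cyc W (y z)

theorem result (k : Type) [Field k] [IsAlgClosed k] (K : Type) [Field K] [CharZero K] (C : CycleMap k K)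
    (hC : C.IsBorelMoore) (A : Polynomial k) (hA : IsAdditive A) (hA0 : A ≠ 0) (M : ℕ) (N d : Fin M → ℕ)
    (f0 : Fin M → Polynomial k) (f : (j : Fin M) → Fin (N j) → Polynomial k) (P : (j : Fin M) → Fin (N j) → k)
    (hP : ∀ j, Function.Injective (P j)) (hm0 : ∀ j, ((f0 j).natDegree : k) ≠ 0)
    (hm : ∀ j i, ((f j i).natDegree : k) ≠ 0)
    (hd : ∀ j, d j + 1 = (f0 j).natDegree + ∑ i, ((f j i).natDegree + 1)) (n : ℕ) (he : ∑ j, d j = 2 * n)
    (c : Fin M → k) (hc : ∀ j, c j ≠ 0) (hAc : ∀ j y, A.eval (c j * y) = c j * A.eval y) (τ : Type)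
    [Finite τ] (S : Set (τ → k)) (hS : IsZeroSet S) (l0 : LL d) :
    AreCopies C (NZ A) (affS n S) (tms (ppow A f0 f P d) S) (IsDet C.G A f0 f P c S l0)
      (IsDet C.T A f0 f P c S l0) := by
  obtain ⟨eG, eT, h⟩ := detS_iso hC hA hA0 hP hm0 hm hd he hc hAc hS l0
  refine ⟨(detS C.G A f0 f P c S l0).subtype ∘ₗ eG.symm.toLinearMap,
    (detS C.T A f0 f P c S l0).subtype ∘ₗ eT.symm.toLinearMap,
    ⟨Subtype.val_injective.comp eG.symm.injective, fun x => ⟨fun hx => ⟨eG ⟨x, hx⟩, ?_⟩, ?_⟩⟩,
    ⟨Subtype.val_injective.comp eT.symm.injective, fun x => ⟨fun hx => ⟨eT ⟨x, hx⟩, ?_⟩, ?_⟩⟩, fun y => ?_⟩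
  · show (eG.symm (eG ⟨x, hx⟩)).1 = x
    rw [LinearEquiv.symm_apply_apply]
  · rintro ⟨y, rfl⟩
    exact (eG.symm y).2
  · show (eT.symm (eT ⟨x, hx⟩)).1 = x
    rw [LinearEquiv.symm_apply_apply]
  · rintro ⟨y, rfl⟩
    exact (eT.symm y).2
  · obtain ⟨hx, h2⟩ := h (eG.symm y)
    have h3 : eT ⟨C.cyc _ (eG.symm y).1, hx⟩ = fun ζ => C.cyc _ (y ζ) := by
      funext ζ
      rw [h2 ζ, LinearEquiv.apply_symm_apply]
    show C.cyc _ (eG.symm y).1 = (eT.symm fun ζ => C.cyc _ (y ζ)).1
    rw [← h3, LinearEquiv.symm_apply_apply]

end Pool.Agent.Results.MP_7923e9_ag.DeterminantMotives
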